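import Pool.Agent.R234.GR.Final

/-! `L¹_loc` convergence of Green functions with colliding poles is locally uniform. -/

set_option autoImplicit false

open MeasureTheory Filter Topology Set
open scoped ENNReal
open Pool.Agent.R234.GR

namespace Pool.Agent.Results.MP_eb85ab_an.LocallyUniform

/-- Let `Ω` be a bounded hyperconvex domain of `ℂ^n` with `0 ∈ Ω`, `N ≥ 1`, and let
`a ε 1, …, a ε N` be points tending to `0` as `ε → 0+`. If the Green functions `G_ε` of `Ω` with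
poles at the points `a ε j` converge in `L¹_loc(Ω)` to `g`, then, after a modification of `g` on a
null set, `g` is continuous on `Ω \ {0}` and `G_ε` converges to `g` uniformly on every compact
subset of `Ω \ {0}` (on which `G_ε` is finite for small `ε`). -/
theorem result (n : ℕ) (Ω : Set (EuclideanSpace ℂ (Fin n))) (hopen : IsOpen Ω)
    (_hconn : IsConnected Ω) (hbdd : Bornology.IsBounded Ω) (hhyp : Hyperconvex Ω)
    (h0 : (0 : EuclideanSpace ℂ (Fin n)) ∈ Ω) (N : ℕ) (hN : 1 ≤ N)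
    (a : ℝ → Fin N → EuclideanSpace ℂ (Fin n))
    (hlim : ∀ j, Tendsto (fun ε => a ε j) (𝓝[>] 0) (𝓝 0))
    (g : EuclideanSpace ℂ (Fin n) → ℝ) (hg : LocallyIntegrableOn g Ω)
    (hconv : ∀ K ⊆ Ω, IsCompact K → Tendsto
      (fun ε => ∫⁻ z in K, ‖(green Ω (range (a ε)) z).toReal - g z‖ₑ) (𝓝[>] 0) (𝓝 0)) :
    ∃ g' : EuclideanSpace ℂ (Fin n) → ℝ, (∀ᵐ z ∂volume.restrict Ω, g' z = g z) ∧
      ContinuousOn g' (Ω \ {0}) ∧
      ∀ K ⊆ Ω \ {0}, IsCompact K →
        (∀ᶠ ε in 𝓝[>] (0 : ℝ), ∀ z ∈ K, green Ω (range (a ε)) z ≠ ⊥ ∧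
          green Ω (range (a ε)) z ≠ ⊤) ∧
        TendstoUniformlyOn (fun ε z => (green Ω (range (a ε)) z).toReal) g' (𝓝[>] 0) K :=
  main volume hopen hbdd h0 hhyp hN hlim
    (hg.aestronglyMeasurable).aemeasurable hconv

end Pool.Agent.Results.MP_eb85ab_an.LocallyUniform
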